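import Mathlib

open Filter Topology

namespace Pool.Agent.Results.MP_8292e8_an.EverySeparable

/-- A bounded operator `T` on a Banach space is convex-cyclic if for some vector `x` the convex
hull of the orbit `{T^n x : n ≥ 0}` is dense. -/
def IsConvexCyclic {𝕜 X : Type*} [RCLike 𝕜] [NormedAddCommGroup X] [NormedSpace 𝕜 X]
    [NormedSpace ℝ X] (T : X →L[𝕜] X) : Prop :=
  ∃ x : X, Dense (convexHull ℝ (Set.range fun n : ℕ => (T ^ n) x))

section aux

variable {𝕜 X : Type*} [RCLike 𝕜] [NormedAddCommGroup X] [NormedSpace 𝕜 X]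

theorem exists_unit (𝕜 : Type*) [RCLike 𝕜] : ∃ u : 𝕜, u ^ 4 = 1 ∧
    (∀ z : 𝕜, z ≠ 0 → ∃ j : ℕ, 0 < RCLike.re (u ^ j * z)) ∧
    (∀ z : 𝕜, ∃ w : 𝕜, w ≠ 0 ∧ ∀ (k : ℕ) (r : ℝ), RCLike.re (w * ((u ^ 2) ^ k * (((r ^ 2 : ℝ) : 𝕜) * z))) ≤ 0) := by
  by_cases hI : (RCLike.I : 𝕜) = 0
  · refine ⟨-1, by norm_num, ?_, ?_⟩
    · intro z hz
      have hz' : z = ((RCLike.re z : ℝ) : 𝕜) := by
        conv_lhs => rw [← RCLike.re_add_im z]
        rw [hI]; simp
      have hre : RCLike.re z ≠ 0 := by
        intro h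
        apply hz
        rw [hz', h]; simp
      rcases lt_or_gt_of_ne hre with h | h
      · exact ⟨1, by simpa using h⟩
      · exact ⟨0, by simpa using h⟩
    · intro z
      by_cases hz : z = 0
      · exact ⟨1, one_ne_zero, by intro k r; simp [hz]⟩
      · refine ⟨-(starRingEnd 𝕜 z), ?_, ?_⟩
        · simpa using hz
        · intro k r
          have : -(starRingEnd 𝕜 z) * (((-1 : 𝕜) ^ 2) ^ k * (((r ^ 2 : ℝ) : 𝕜) * z))
              = ((-(r ^ 2 * ‖z‖ ^ 2) : ℝ) : 𝕜) := by
            have h1 : (starRingEnd 𝕜 z) * z = ((‖z‖ ^ 2 : ℝ) : 𝕜) := by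
              rw [RCLike.conj_mul]; push_cast; rfl
            have h2 : ((-1 : 𝕜) ^ 2) ^ k = 1 := by norm_num
            rw [h2]
            calc -(starRingEnd 𝕜 z) * (1 * (((r ^ 2 : ℝ) : 𝕜) * z))
                = -(((r ^ 2 : ℝ) : 𝕜) * ((starRingEnd 𝕜 z) * z)) := by ring
              _ = _ := by rw [h1]; push_cast; ring
          rw [this, RCLike.ofReal_re]
          have : 0 ≤ r ^ 2 * ‖z‖ ^ 2 := by positivity
          linarith
  · have hI2 : (RCLike.I : 𝕜) * RCLike.I = -1 := by
      rcases RCLike.I_mul_I (K := 𝕜) with h | h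
      · exact absurd h hI
      · exact h
    have hIm : RCLike.im (RCLike.I : 𝕜) = 1 := by
      rcases RCLike.I_eq_zero_or_im_I_eq_one (K := 𝕜) with h | h
      · exact absurd h hI
      · exact h
    have hI2' : (RCLike.I : 𝕜) ^ 2 = -1 := by rw [pow_two, hI2]
    refine ⟨RCLike.I, ?_, ?_, ?_⟩
    · calc (RCLike.I : 𝕜) ^ 4 = (RCLike.I ^ 2) ^ 2 := by ring
        _ = 1 := by rw [hI2']; norm_num
    · intro z hz
      by_cases hre : RCLike.re z = 0
      · have him : RCLike.im z ≠ 0 := by
          intro h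
          apply hz
          apply RCLike.ext <;> simp [hre, h]
        have h1 : RCLike.re (RCLike.I * z) = - RCLike.im z := by
          rw [RCLike.mul_re, RCLike.I_re, hIm]; ring
        rcases lt_or_gt_of_ne him with h | h
        · refine ⟨1, ?_⟩
          rw [pow_one, h1]; linarith
        · refine ⟨3, ?_⟩
          have : (RCLike.I : 𝕜) ^ 3 * z = - (RCLike.I * z) := by
            calc (RCLike.I : 𝕜) ^ 3 * z = RCLike.I ^ 2 * (RCLike.I * z) := by ring
              _ = _ := by rw [hI2']; ring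
          rw [this, map_neg, h1]; linarith
      · rcases lt_or_gt_of_ne hre with h | h
        · refine ⟨2, ?_⟩
          rw [hI2', neg_one_mul, map_neg]; linarith
        · exact ⟨0, by simpa using h⟩
    · intro z
      by_cases hz : z = 0
      · exact ⟨1, one_ne_zero, by intro k r; simp [hz]⟩
      · refine ⟨RCLike.I * (starRingEnd 𝕜 z), ?_, ?_⟩
        · exact mul_ne_zero hI (by simpa using hz)
        · intro k r
          have h1 : (starRingEnd 𝕜 z) * z = ((‖z‖ ^ 2 : ℝ) : 𝕜) := by
            rw [RCLike.conj_mul]; push_cast; rfl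
          have : RCLike.I * (starRingEnd 𝕜 z) * (((RCLike.I : 𝕜) ^ 2) ^ k * (((r ^ 2 : ℝ) : 𝕜) * z))
              = (((-1) ^ k * r ^ 2 * ‖z‖ ^ 2 : ℝ) : 𝕜) * RCLike.I := by
            rw [hI2']
            calc RCLike.I * (starRingEnd 𝕜 z) * (((-1 : 𝕜)) ^ k * (((r ^ 2 : ℝ) : 𝕜) * z))
                = (-1) ^ k * ((r ^ 2 : ℝ) : 𝕜) * ((starRingEnd 𝕜 z) * z) * RCLike.I := by ring
              _ = _ := by rw [h1]; push_cast; ring
          rw [this, RCLike.re_ofReal_mul, RCLike.I_re]
          simp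

/-- Growth lemma. -/
theorem growth (A C a b : ℝ) (hA : 0 < A) (_hC : 0 ≤ C) (hb : 1 < b) (hab : b < a) (M : ℝ) (j : ℕ) :
    ∃ m : ℕ, M < A * a ^ (4 * m + j) - C * b ^ (4 * m + j) := by
  have ha : 0 < a := by linarith
  have h1 : Tendsto (fun k : ℕ => (b / a) ^ k) atTop (𝓝 0) :=
    tendsto_pow_atTop_nhds_zero_of_lt_one (by positivity) (by rw [div_lt_one ha]; exact hab)
  have h2 : Tendsto (fun k : ℕ => a ^ k) atTop atTop := tendsto_pow_atTop_atTop_of_one_lt (by linarith)
  have h3 : Tendsto (fun k : ℕ => a ^ k * (A - C * (b / a) ^ k)) atTop atTop := by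
    apply Tendsto.atTop_mul_pos hA h2
    have := (h1.const_mul C).const_sub A
    simpa using this
  have h4 : Tendsto (fun m : ℕ => 4 * m + j) atTop atTop := by
    apply tendsto_atTop_mono (f := fun m : ℕ => m) (fun m => by omega) tendsto_id
  obtain ⟨m, hm⟩ := ((h3.comp h4).eventually_gt_atTop M).exists
  refine ⟨m, ?_⟩
  have : a ^ (4 * m + j) * (A - C * (b / a) ^ (4 * m + j)) = A * a ^ (4 * m + j) - C * b ^ (4 * m + j) := by
    rw [div_pow]; field_simp
  simpa [this] using hm

/-- Hahn-Banach for a vector off a finite dimensional subspace. -/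
theorem exists_sep (F : Submodule 𝕜 X) [FiniteDimensional 𝕜 F] (x : X) (hx : x ∉ F) :
    ∃ f : X →L[𝕜] 𝕜, f x = 1 ∧ ∀ y ∈ F, f y = 0 := by
  have : IsClosed (F : Set X) := F.closed_of_finiteDimensional
  have hne : (F.mkQ x) ≠ 0 := by
    simpa using hx
  obtain ⟨g, -, hg⟩ := exists_dual_vector 𝕜 (F.mkQ x) (norm_ne_zero_iff.mpr hne)
  have hn : ((‖F.mkQ x‖ : ℝ) : 𝕜) ≠ 0 := by
    exact_mod_cast norm_ne_zero_iff.mpr hne
  refine ⟨((‖F.mkQ x‖ : ℝ) : 𝕜)⁻¹ • (g.comp F.mkQL), ?_, ?_⟩
  · simp only [smul_apply, ContinuousLinearMap.comp_apply, smul_eq_mul]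
    have : F.mkQL x = F.mkQ x := rfl
    rw [this, hg, inv_mul_cancel₀ hn]
  · intro y hy
    have : F.mkQL y = 0 := by
      have : F.mkQ y = 0 := by simpa using hy
      exact this
    simp [this]

open Classical in
/-- Recursive construction of a biorthogonal system from a sequence. -/
noncomputable def pair (d : ℕ → X) : ℕ → X × (X →L[𝕜] 𝕜)
  | n =>
    let x := d n - ∑ k : Fin n, (pair d k).2 (d n) • (pair d k).1
    (x, if h : ∃ f : X →L[𝕜] 𝕜, f x = 1 ∧ ∀ k : Fin n, f (pair d k).1 = 0 then h.choose else 0)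
  termination_by n => n

theorem exists_biorth (d : ℕ → X) : ∃ (x : ℕ → X) (f : ℕ → X →L[𝕜] 𝕜),
    (∀ n, d n ∈ Submodule.span 𝕜 (Set.range x)) ∧ (∀ m n, m ≠ n → f m (x n) = 0) ∧
    (∀ n, x n ≠ 0 → f n (x n) = 1) := by
  classical
  set x : ℕ → X := fun n => (pair (𝕜 := 𝕜) d n).1 with hxdef
  set f : ℕ → X →L[𝕜] 𝕜 := fun n => (pair (𝕜 := 𝕜) d n).2 with hfdef
  have hx : ∀ n, x n = d n - ∑ k : Fin n, f k (d n) • x k := by
    intro n
    simp only [hxdef, hfdef]
    conv_lhs => rw [pair]
  have hf : ∀ n, f n = if h : ∃ g : X →L[𝕜] 𝕜, g (x n) = 1 ∧ ∀ k : Fin n, g (x k) = 0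
      then h.choose else 0 := by
    intro n
    simp only [hxdef, hfdef]
    conv_lhs => rw [pair]
    have : d n - ∑ k : Fin n, (pair (𝕜 := 𝕜) d k).2 (d n) • (pair (𝕜 := 𝕜) d k).1 = (pair (𝕜 := 𝕜) d n).1 := by
      have := hx n
      simp only [hxdef, hfdef] at this
      exact this.symm
    simp only [this]
  have key : ∀ n, (∀ k < n, f k (x n) = 0) ∧ (∀ k < n, f n (x k) = 0) ∧
      (x n ≠ 0 → f n (x n) = 1) ∧ (x n = 0 → f n = 0) := by
    intro n
    induction n using Nat.strong_induction_on with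
    | _ n ih =>
      have h1 : ∀ k < n, f k (x n) = 0 := by
        intro k hk
        rw [hx n, map_sub, map_sum]
        rw [Finset.sum_eq_single (⟨k, hk⟩ : Fin n)]
        · by_cases h0 : x k = 0
          · rw [(ih k hk).2.2.2 h0]; simp
          · simp [(ih k hk).2.2.1 h0]
        · intro j _ hj
          have hjk : (j : ℕ) ≠ k := fun h => hj (Fin.ext h)
          rcases lt_or_gt_of_ne hjk with h | h
          · simp [(ih k hk).2.1 j h]
          · simp [(ih j j.2).1 k h]
        · simp
      have h2 : x n ≠ 0 → ∃ g : X →L[𝕜] 𝕜, g (x n) = 1 ∧ ∀ k : Fin n, g (x k) = 0 := by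
        intro hn0
        have hnot : x n ∉ Submodule.span 𝕜 (Set.range fun k : Fin n => x k) := by
          intro hmem
          rw [Submodule.mem_span_range_iff_exists_fun] at hmem
          obtain ⟨c, hc⟩ := hmem
          apply hn0
          rw [← hc]
          apply Finset.sum_eq_zero
          intro j _
          by_cases h0 : x j = 0
          · simp [h0]
          · have h3 := h1 j j.2
            rw [← hc, map_sum, Finset.sum_eq_single j] at h3
            · simp [(ih j j.2).2.2.1 h0] at h3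
              simp [h3]
            · intro i _ hi
              have hij : (i : ℕ) ≠ j := fun h => hi (Fin.ext h)
              rcases lt_or_gt_of_ne hij with h | h
              · simp [(ih j j.2).2.1 i h]
              · simp [(ih i i.2).1 j h]
            · simp
        have : FiniteDimensional 𝕜 (Submodule.span 𝕜 (Set.range fun k : Fin n => x k)) :=
          FiniteDimensional.span_of_finite 𝕜 (Set.finite_range _)
        obtain ⟨g, hg1, hg2⟩ := exists_sep _ _ hnot
        exact ⟨g, hg1, fun k => hg2 _ (Submodule.subset_span ⟨k, rfl⟩)⟩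
      refine ⟨h1, ?_, ?_, ?_⟩
      · intro k hk
        rw [hf n]
        split_ifs with h
        · exact h.choose_spec.2 ⟨k, hk⟩
        · simp
      · intro hn0
        rw [hf n, dif_pos (h2 hn0)]
        exact (h2 hn0).choose_spec.1
      · intro hn0
        rw [hf n, dif_neg]
        rintro ⟨g, hg, -⟩
        rw [hn0, map_zero] at hg
        exact zero_ne_one hg
  refine ⟨x, f, ?_, ?_, fun n => (key n).2.2.1⟩
  · intro n
    have : d n = x n + ∑ k : Fin n, f k (d n) • x k := by rw [hx n]; abel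
    rw [this]
    refine Submodule.add_mem _ (Submodule.subset_span ⟨n, rfl⟩) (Submodule.sum_mem _ fun k _ => ?_)
    exact Submodule.smul_mem _ _ (Submodule.subset_span ⟨k, rfl⟩)
  · intro m n hmn
    rcases lt_or_gt_of_ne hmn with h | h
    · exact (key n).1 m h
    · exact (key m).2.1 n h


/-- The diagonal operator on a biorthogonal system. -/
theorem exists_diag [CompleteSpace X] (x : ℕ → X) (f : ℕ → X →L[𝕜] 𝕜)
    (hbi : ∀ m n, m ≠ n → f m (x n) = 0) (hone : ∀ n, x n ≠ 0 → f n (x n) = 1) :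
    ∃ (w : ℕ → ℝ) (K : X →L[𝕜] X), (∀ n, 0 < w n) ∧ StrictAnti w ∧
      (∀ n, K (x n) = (w n : 𝕜) • x n) ∧ (∀ n, x n ≠ 0 → ∀ y, f n (K y) = (w n : 𝕜) * f n y) := by
  classical
  set w : ℕ → ℝ := fun n => ∏ k ∈ Finset.range (n + 1), (2 * (1 + ‖f k‖ * ‖x k‖))⁻¹ with hw
  have hpos : ∀ n, 0 < w n := by
    intro n
    apply Finset.prod_pos
    intro k _
    positivity
  have hstep : ∀ n, w (n + 1) = w n * (2 * (1 + ‖f (n + 1)‖ * ‖x (n + 1)‖))⁻¹ := by
    intro n
    simp only [hw]
    rw [Finset.prod_range_succ]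
  have hle : ∀ n, (2 * (1 + ‖f n‖ * ‖x n‖))⁻¹ ≤ 1 / 2 := by
    intro n
    rw [inv_eq_one_div]
    apply one_div_le_one_div_of_le (by norm_num)
    nlinarith [mul_nonneg (norm_nonneg (f n)) (norm_nonneg (x n))]
  have hhalf : ∀ n, w (n + 1) ≤ w n * (1 / 2) := by
    intro n
    rw [hstep]
    exact mul_le_mul_of_nonneg_left (hle _) (hpos n).le
  have hanti : StrictAnti w := by
    apply strictAnti_nat_of_succ_lt
    intro n
    have := hhalf n
    have := hpos n
    linarith
  have hbound : ∀ n, w n * (‖f n‖ * ‖x n‖) ≤ (1 / 2) ^ n := by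
    intro n
    have h1 : ∀ n, w n ≤ (1 / 2) ^ n * (2 * (1 + ‖f n‖ * ‖x n‖))⁻¹ := by
      intro n
      induction n with
      | zero => simp [hw]
      | succ n ih =>
        rw [hstep]
        have h2 : w n ≤ (1 / 2) ^ (n + 1) := by
          calc w n ≤ (1 / 2) ^ n * (2 * (1 + ‖f n‖ * ‖x n‖))⁻¹ := ih
            _ ≤ (1 / 2) ^ n * (1 / 2) := by
                apply mul_le_mul_of_nonneg_left (hle n); positivity
            _ = _ := by ring
        apply mul_le_mul_of_nonneg_right h2
        positivity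
    calc w n * (‖f n‖ * ‖x n‖) ≤ ((1 / 2) ^ n * (2 * (1 + ‖f n‖ * ‖x n‖))⁻¹) * (‖f n‖ * ‖x n‖) := by
          apply mul_le_mul_of_nonneg_right (h1 n); positivity
      _ = (1 / 2) ^ n * ((2 * (1 + ‖f n‖ * ‖x n‖))⁻¹ * (‖f n‖ * ‖x n‖)) := by ring
      _ ≤ (1 / 2) ^ n * 1 := by
          apply mul_le_mul_of_nonneg_left _ (by positivity)
          rw [inv_mul_le_iff₀ (by positivity)]
          nlinarith [mul_nonneg (norm_nonneg (f n)) (norm_nonneg (x n))]
      _ = _ := by ring
  set T : ℕ → X →L[𝕜] X := fun n => (w n : 𝕜) • (f n).smulRight (x n) with hT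
  have hsum : Summable T := by
    apply Summable.of_norm_bounded (g := fun n : ℕ => (1 / 2 : ℝ) ^ n) summable_geometric_two
    intro n
    simp only [hT]
    rw [norm_smul, ContinuousLinearMap.norm_smulRight_apply, RCLike.norm_ofReal, abs_of_pos (hpos n)]
    exact hbound n
  refine ⟨w, ∑' n, T n, hpos, hanti, ?_, ?_⟩
  · intro m
    have h1 : (∑' n, T n) (x m) = ∑' n, T n (x m) := by
      have h := ContinuousLinearMap.map_tsum (ContinuousLinearMap.apply 𝕜 X (x m)) hsum
      simpa only [ContinuousLinearMap.apply_apply] using h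
    rw [h1, tsum_eq_single m]
    · simp only [hT, smul_apply, ContinuousLinearMap.smulRight_apply]
      by_cases h0 : x m = 0
      · simp [h0]
      · rw [hone m h0, one_smul]
    · intro n hn
      simp [hT, hbi n m hn]
  · intro m hm y
    have h1 : (∑' n, T n) y = ∑' n, T n y := by
      have h := ContinuousLinearMap.map_tsum (ContinuousLinearMap.apply 𝕜 X y) hsum
      simpa only [ContinuousLinearMap.apply_apply] using h
    have h2 : Summable fun n => T n y := by
      have h := ContinuousLinearMap.summable (ContinuousLinearMap.apply 𝕜 X y) hsum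
      simpa only [ContinuousLinearMap.apply_apply] using h
    rw [h1, (f m).map_tsum h2, tsum_eq_single m]
    · simp only [hT, smul_apply, ContinuousLinearMap.smulRight_apply, map_smul, smul_eq_mul]
      rw [hone m hm, mul_one]
    · intro n hn
      simp [hT, hbi m n (Ne.symm hn)]

end aux

/-- Every nonzero separable Banach space over `ℝ` or `ℂ` carries a convex-cyclic operator `S`
such that `S ^ 2` is not convex-cyclic. -/
theorem result {𝕜 X : Type*} [RCLike 𝕜] [NormedAddCommGroup X] [NormedSpace 𝕜 X]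
    [NormedSpace ℝ X] [IsScalarTower ℝ 𝕜 X] [CompleteSpace X]
    [TopologicalSpace.SeparableSpace X] [Nontrivial X] :
    ∃ S : X →L[𝕜] X, IsConvexCyclic S ∧ ¬ IsConvexCyclic (S ^ 2) := by
  classical
  obtain ⟨x, f, hspan, hbi, hone⟩ := exists_biorth (𝕜 := 𝕜) (TopologicalSpace.denseSeq X)
  obtain ⟨w, K, hpos, hanti, hK1, hK2⟩ := exists_diag x f hbi hone
  obtain ⟨u, hu4, hu1, hu2⟩ := exists_unit 𝕜
  have hdense : Dense (Submodule.span 𝕜 (Set.range x) : Set X) := by
    apply (TopologicalSpace.denseRange_denseSeq X).mono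
    rintro _ ⟨n, rfl⟩
    exact hspan n
  -- functionals vanishing on all x n are zero
  have hfun : ∀ g : X →L[𝕜] 𝕜, (∀ n, g (x n) = 0) → g = 0 := by
    intro g hg
    apply ContinuousLinearMap.ext_on hdense
    rintro y hy
    obtain ⟨n, rfl⟩ := hy
    simp [hg n]
  have hex : ∃ n, x n ≠ 0 := by
    by_contra hcon
    push Not at hcon
    obtain ⟨y, hy⟩ := exists_ne (0 : X)
    obtain ⟨g, -, hg⟩ := exists_dual_vector 𝕜 y (norm_ne_zero_iff.mpr hy)
    have := hfun g (fun n => by rw [hcon n, map_zero])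
    rw [this] at hg
    have h0 : ((‖y‖ : ℝ) : 𝕜) = 0 := by rw [← hg]; simp
    exact hy (norm_eq_zero.mp (RCLike.ofReal_eq_zero.mp h0))
  set S : X →L[𝕜] X := u • ((2 : 𝕜) • ContinuousLinearMap.id 𝕜 X + K) with hS
  have hSx : ∀ n, S (x n) = (u * ((2 + w n : ℝ) : 𝕜)) • x n := by
    intro n
    simp only [hS, smul_apply, add_apply, ContinuousLinearMap.id_apply, hK1]
    rw [← add_smul, smul_smul]
    push_cast
    rfl
  have hSpow : ∀ k n, (S ^ k) (x n) = (u * ((2 + w n : ℝ) : 𝕜)) ^ k • x n := by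
    intro k n
    induction k with
    | zero => simp
    | succ k ih =>
      rw [pow_succ, mul_apply_eq_comp, hSx, map_smul, ih, smul_smul, pow_succ, mul_comm]
  refine ⟨S, ?_, ?_⟩
  · -- convex-cyclic
    set c : ℕ → ℝ := fun n => (1 / 2) ^ n * (1 + ‖x n‖)⁻¹ with hc
    have hcpos : ∀ n, 0 < c n := fun n => by positivity
    have hcs : ∀ n, ‖(c n : 𝕜) • x n‖ ≤ (1 / 2) ^ n := by
      intro n
      rw [norm_smul, RCLike.norm_ofReal, abs_of_pos (hcpos n)]
      calc c n * ‖x n‖ = (1 / 2) ^ n * ((1 + ‖x n‖)⁻¹ * ‖x n‖) := by simp only [hc]; ring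
        _ ≤ (1 / 2) ^ n * 1 := by
            apply mul_le_mul_of_nonneg_left _ (by positivity)
            rw [inv_mul_le_iff₀ (by positivity)]
            linarith
        _ = _ := by ring
    have hsumv : Summable fun n => (c n : 𝕜) • x n :=
      Summable.of_norm_bounded (g := fun n : ℕ => (1 / 2 : ℝ) ^ n) summable_geometric_two hcs
    set v : X := ∑' n, (c n : 𝕜) • x n with hv
    refine ⟨v, ?_⟩
    have hunb : ∀ g : X →L[𝕜] 𝕜, g ≠ 0 → ∀ M : ℝ, ∃ k : ℕ, M < RCLike.re (g ((S ^ k) v)) := by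
      intro g hg M
      have hexn : ∃ n, g (x n) ≠ 0 := by
        by_contra hcon
        push Not at hcon
        exact hg (hfun g hcon)
      set n0 := Nat.find hexn with hn0
      have hn0spec : g (x n0) ≠ 0 := Nat.find_spec hexn
      have hn0min : ∀ m < n0, g (x m) = 0 := by
        intro m hm
        have := Nat.find_min hexn hm
        push Not at this
        exact this
      obtain ⟨j, hj⟩ := hu1 _ hn0spec
      set C : ℝ := ∑' n, c n * ‖g (x n)‖ with hC
      have hsumc : Summable fun n => c n * ‖g (x n)‖ := by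
        refine Summable.of_nonneg_of_le (f := fun n => ‖g‖ * (1 / 2 : ℝ) ^ n) (fun n => by positivity) ?_ ?_
        · intro n
          calc c n * ‖g (x n)‖ ≤ c n * (‖g‖ * ‖x n‖) := by
                apply mul_le_mul_of_nonneg_left (g.le_opNorm _) (hcpos n).le
            _ = ‖g‖ * ‖(c n : 𝕜) • x n‖ := by
                rw [norm_smul, RCLike.norm_ofReal, abs_of_pos (hcpos n)]; ring
            _ ≤ _ := mul_le_mul_of_nonneg_left (hcs n) (norm_nonneg _)
        · exact summable_geometric_two.mul_left _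
      have hC0 : 0 ≤ C := tsum_nonneg fun n => by positivity
      have hA : 0 < c n0 * RCLike.re (u ^ j * g (x n0)) := mul_pos (hcpos _) hj
      obtain ⟨m, hm⟩ := growth (c n0 * RCLike.re (u ^ j * g (x n0))) C (2 + w n0) (2 + w (n0 + 1))
        hA hC0 (by linarith [hpos (n0 + 1)]) (by linarith [hanti (Nat.lt_succ_self n0)]) M j
      refine ⟨4 * m + j, lt_of_lt_of_le hm ?_⟩
      set k := 4 * m + j with hk
      have huk : u ^ k = u ^ j := by
        rw [hk, pow_add, pow_mul, hu4, one_pow, one_mul]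
      have hnu : ‖u‖ = 1 := by
        have : ‖u‖ ^ 4 = 1 := by rw [← norm_pow, hu4, norm_one]
        exact (pow_eq_one_iff_of_nonneg (norm_nonneg _) (by norm_num)).mp this
      -- expansion
      have hexp : g ((S ^ k) v) = ∑' n, (c n : 𝕜) * ((u * ((2 + w n : ℝ) : 𝕜)) ^ k * g (x n)) := by
        have h1 : g ((S ^ k) v) = (g.comp (S ^ k)) v := rfl
        rw [h1, hv, (g.comp (S ^ k)).map_tsum hsumv]
        congr 1
        ext n
        simp only [ContinuousLinearMap.comp_apply, map_smul, smul_eq_mul, hSpow]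
      set t : ℕ → 𝕜 := fun n => (c n : 𝕜) * ((u * ((2 + w n : ℝ) : 𝕜)) ^ k * g (x n)) with ht
      have hsumt : Summable t := by
        have := (g.comp (S ^ k)).summable hsumv
        convert this using 2 with n
        simp only [ht, ContinuousLinearMap.comp_apply, map_smul, smul_eq_mul, hSpow]
      have hsplit : g ((S ^ k) v) = t n0 + ∑' n, if n = n0 then 0 else t n := by
        rw [hexp, hsumt.tsum_eq_add_tsum_ite n0]
      have hmain : RCLike.re (t n0) = c n0 * RCLike.re (u ^ j * g (x n0)) * (2 + w n0) ^ k := by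
        have : t n0 = ((c n0 * (2 + w n0) ^ k : ℝ) : 𝕜) * (u ^ j * g (x n0)) := by
          simp only [ht, mul_pow, huk]
          push_cast
          ring
        rw [this, RCLike.re_ofReal_mul]
        ring
      have hrest : ‖∑' n, (if n = n0 then 0 else t n)‖ ≤ C * (2 + w (n0 + 1)) ^ k := by
        rw [hC, ← tsum_mul_right]
        apply tsum_of_norm_bounded (hsumc.mul_right _).hasSum
        intro n
        have hwn : 0 < 2 + w (n0 + 1) := by linarith [hpos (n0 + 1)]
        split_ifs with h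
        · rw [norm_zero]
          have := hcpos n
          positivity
        · rcases lt_or_gt_of_ne h with h' | h'
          · simp only [ht, hn0min n h', mul_zero, norm_zero, norm_zero, zero_mul, le_refl]
          · simp only [ht]
            have hwn' : 0 < 2 + w n := by linarith [hpos n]
            have h5 : 2 + w n ≤ 2 + w (n0 + 1) := by
              have := hanti.antitone (Nat.succ_le_of_lt h')
              simpa using this
            rw [norm_mul, norm_mul, norm_pow, norm_mul, hnu, one_mul, RCLike.norm_ofReal,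
              RCLike.norm_ofReal, abs_of_pos (hcpos n), abs_of_pos hwn']
            calc c n * ((2 + w n) ^ k * ‖g (x n)‖) = (c n * ‖g (x n)‖) * (2 + w n) ^ k := by ring
              _ ≤ (c n * ‖g (x n)‖) * (2 + w (n0 + 1)) ^ k := by
                  apply mul_le_mul_of_nonneg_left _ (by have := hcpos n; positivity)
                  exact pow_le_pow_left₀ hwn'.le h5 k
      rw [hsplit, map_add, hmain]
      have := RCLike.abs_re_le_norm (∑' n, if n = n0 then 0 else t n)
      have h6 := (abs_le.mp (this.trans hrest)).1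
      linarith
    -- conclude density
    intro z
    by_contra hz
    have hconv : Convex ℝ (closure (convexHull ℝ (Set.range fun n : ℕ => (S ^ n) v))) :=
      (convex_convexHull ℝ _).closure
    obtain ⟨g, s, hg1, hg2⟩ := RCLike.geometric_hahn_banach_closed_point (𝕜 := 𝕜) hconv
      isClosed_closure hz
    have hg0 : g ≠ 0 := by
      rintro rfl
      have h0 := hg1 ((S ^ 0) v) (subset_closure (subset_convexHull ℝ _ ⟨0, rfl⟩))
      simp at h0 hg2
      linarith
    obtain ⟨k, hk⟩ := hunb g hg0 s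
    have := hg1 ((S ^ k) v) (subset_closure (subset_convexHull ℝ _ ⟨k, rfl⟩))
    linarith
  · -- square is not convex-cyclic
    rintro ⟨y, hy⟩
    obtain ⟨n1, hn1⟩ := hex
    have hfS : ∀ z, f n1 (S z) = (u * ((2 + w n1 : ℝ) : 𝕜)) * f n1 z := by
      intro z
      simp only [hS, smul_apply, add_apply, ContinuousLinearMap.id_apply, map_smul, map_add,
        smul_eq_mul, hK2 n1 hn1]
      push_cast
      ring
    have hfSk : ∀ k z, f n1 (((S ^ 2) ^ k) z) = ((u ^ 2) ^ k * (((((2 + w n1) ^ k) ^ 2 : ℝ) : 𝕜) * f n1 z)) := by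
      intro k z
      have h1 : ∀ k z, f n1 ((S ^ k) z) = (u * ((2 + w n1 : ℝ) : 𝕜)) ^ k * f n1 z := by
        intro k
        induction k with
        | zero => intro z; simp
        | succ k ih =>
          intro z
          rw [pow_succ, mul_apply_eq_comp, ih, hfS]
          ring
      rw [← pow_mul, h1, mul_pow, pow_mul u 2 k]
      push_cast
      ring
    obtain ⟨w', hw'0, hw'⟩ := hu2 (f n1 y)
    set g : X →L[𝕜] 𝕜 := w' • f n1 with hg
    have hg0 : ∀ k, RCLike.re (g (((S ^ 2) ^ k) y)) ≤ 0 := by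
      intro k
      simp only [hg, smul_apply, smul_eq_mul, hfSk]
      exact hw' k _
    -- the closed half space
    have hclosed : IsClosed {z : X | RCLike.re (g z) ≤ 0} :=
      isClosed_le (RCLike.continuous_re.comp g.continuous) continuous_const
    have hconv : Convex ℝ {z : X | RCLike.re (g z) ≤ 0} := by
      intro a ha b hb α β hα hβ _
      simp only [Set.mem_ofPred_eq] at ha hb ⊢
      have e1 : α • a = (α : 𝕜) • a := (algebraMap_smul 𝕜 α a).symm
      have e2 : β • b = (β : 𝕜) • b := (algebraMap_smul 𝕜 β b).symm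
      have e3 : g ((α : 𝕜) • a + (β : 𝕜) • b) = (α : 𝕜) * g a + (β : 𝕜) * g b := by
        rw [g.map_add, g.map_smul, g.map_smul, smul_eq_mul, smul_eq_mul]
      rw [e1, e2, e3, map_add, RCLike.re_ofReal_mul, RCLike.re_ofReal_mul]
      have h1 := mul_nonneg hα (neg_nonneg.mpr ha)
      have h2 := mul_nonneg hβ (neg_nonneg.mpr hb)
      linarith
    have hsub : closure (convexHull ℝ (Set.range fun n : ℕ => ((S ^ 2) ^ n) y)) ⊆
        {z : X | RCLike.re (g z) ≤ 0} := by
      apply closure_minimal _ hclosed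
      apply convexHull_min _ hconv
      rintro _ ⟨n, rfl⟩
      exact hg0 n
    have hz : RCLike.re (g ((w'⁻¹ : 𝕜) • x n1)) = 1 := by
      simp only [hg, smul_apply, smul_eq_mul, map_smul, hone n1 hn1, mul_one]
      rw [inv_mul_cancel₀ hw'0, RCLike.one_re]
    have := hsub (hy ((w'⁻¹ : 𝕜) • x n1))
    simp only [Set.mem_ofPred_eq] at this
    linarith

end Pool.Agent.Results.MP_8292e8_an.EverySeparable
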